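import Pool.Agent.H38R2.CG3.All

/-!
# Products of very small primes are equidistributed in the class groups of 100% of the real quadratic fields

For every a > 2, every ε > 0 and 100% of the squarefree integers d, in the real quadratic field of d:
the ideals whose norm is a product of k distinct primes of (y, 2y], for suitable y and k with
2y ≤ (log d)^a and 2k ≤ log d / log log d, are equidistributed in the ideal class group, and every
ideal class is a product of at most log d / log log d classes of prime ideals of norm at most
(log d)^a.
-/

set_option autoImplicit false

open Pool.Agent.H38R2.CG3 Filter Finset
open scoped Classical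

/-- The number of the squarefree d ≤ X for which `GoodE a ε d` fails is o(X). -/
theorem Pool.Agent.Results.MP_321647_nt.AllSquarefreeRadicands.result :
    ∀ a ε : ℝ, 2 < a → 0 < ε →
      Tendsto (fun X : ℕ =>
        (((Finset.Icc 2 X).filter (fun d => Squarefree d ∧ ¬ GoodE a ε d)).card : ℝ) / X)
        atTop (nhds 0) :=
  finalE_true
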