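import Pool.Agent.H951R5.AR.All

/-!
# Small relations between tiny primes determine the units and class number one, for 100% of the
real quadratic fields

For every a > 2 and 100% of the squarefree integers d, with B = (log d)^a and
n = log d / log log d, in the real quadratic field of d: the products of at most n prime ideals of
norm at most B meet every unit-length window of the Arakelov class group, the small relations
between the primes of norm at most B generate all the B-units, and unique factorisation holds in
the ring of integers if and only if every prime of norm at most B is generated by a product of
powers of these small elements.
-/

set_option autoImplicit false

open Pool.Agent.H951R5.AR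

/-- For every a > 2 the number of the squarefree d in [2, X] for which `GoodAR a d` fails
is o(X). -/
theorem Pool.Agent.Results.MP_321647_nt.SmallUnitsAllSquarefree.result :
    ∀ a : ℝ, 2 < a →
      Filter.Tendsto (fun X : ℕ =>
        (Nat.card {d : ℕ // 2 ≤ d ∧ d ≤ X ∧ Squarefree d ∧ ¬ GoodAR a d} : ℝ) / X)
        Filter.atTop (nhds 0) :=
  finalAR_true
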